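import Pool.Agent.R602.CO.NSp2

/-!
# A zero-dimensional subspace of the real line that is not N-compact, in a model of ZF

The definitions are in `Pool.Agent.R602.CO.NDef` and `Pool.Agent.R602.CO.Top`, the codes in
`Pool.Agent.R602.CO.Base` and `Pool.Agent.R602.CO.Model`, and transitive models of ZF in
`Pool.Agent.W868.Defs`.
-/

namespace Pool.Agent.Results.MP_1eff47_lc.RealSubspaceNotNCompact

open Pool.Agent.W868 Pool.Agent.R602.CO

/-- There is a countable transitive model `M` of ZF that has a zero-dimensional subspace `X` of its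
real line that is not N-compact in `M`. -/
theorem result : ∃ M : Set ZFSet.{0}, M.Countable ∧ IsZF M ∧ ltQ ∈ M ∧
    ∃ X ∈ M, IsRealSet X ∧ ZeroDimIn M X ∧ ¬ NCompactIn M X := by
  obtain ⟨M, hMc, r, hg⟩ := exists_model
  have hM := hg.zf
  have hB := hM.base
  obtain ⟨R, hR, hR'⟩ := reals_mem hM hg.lt_mem
  obtain ⟨D, hD, hD'⟩ := hg.set_mem
  have hX := hM.sep_mem (Q := fun z => ¬ z ∈ D) (by
    (repeat' first
      | assumption
      | exact DfnF.proj _
      | exact DfnF.const (by assumption)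
      | apply Dfn.not | apply Dfn.mem)) hR
  have hX' : ∀ z, z ∈ ZFSet.sep (fun z => ¬ z ∈ D) R ↔
      z ∈ M ∧ ∃ x : ℝ, z = cut x ∧ ∀ i, x ≠ r i := by
    intro z
    rw [ZFSet.mem_sep, hR']
    constructor
    · rintro ⟨⟨h1, x, rfl⟩, h2⟩
      exact ⟨h1, x, rfl, fun i hi => h2 ((hD' _).2 ⟨i, by rw [hi]⟩)⟩
    · rintro ⟨h1, x, rfl, h2⟩
      refine ⟨⟨h1, x, rfl⟩, fun h3 => ?_⟩
      obtain ⟨i, hi⟩ := (hD' _).1 h3
      exact h2 i (cut_inj hi)
  refine ⟨M, hMc, hM, hg.lt_mem, _, hX, fun z hz => ?_, zeroDim hg hX hX', ?_⟩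
  · obtain ⟨-, x, hx, -⟩ := (hX' z).1 hz
    exact ⟨x, hx⟩
  · rintro ⟨J, hJ, C, hC, h, hh, he⟩
    exact no_emb hg hX hJ hC hh hX' he

end Pool.Agent.Results.MP_1eff47_lc.RealSubspaceNotNCompact
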